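import Pool.Agent.Results.MP_9010c3_nt.SparseCycles
import Pool.Agent.U513.AP.Sparse

/-!
# Cycles of Collatz's original permutation, near integral polynomials at simultaneous approximations

The starting file bounds the number of the elements of the cycles contained in `[1, x]`. Here: for all points `α` outside of a set of
small Hausdorff dimension, EVERY cycle through a natural number `n` near an integral polynomial at an approximation of `α` with a large
denominator has an element larger than `n ^ lam`, for `1 ≤ lam < 76 / 75`.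
-/

set_option autoImplicit false

open Finset

namespace Pool.Agent.Results.MP_9010c3_nt.Approximations

open Pool.Agent.U513.AP
open Pool.Agent.Results.MP_9010c3_nt.SparseCycles (IsCycle)

/-- The property every finite cycle through `n` has an element larger than `n ^ lam` holds at approximations outside of exceptional
sets of exponent `75 lam / 76`. -/
theorem result (lam : ℝ) (h1 : 1 ≤ lam) : AtApproximations (ι := Unit) (75 * lam / 76)
    (fun _ n => ∀ C : Set ℕ, IsCycle C → n ∈ C → ∃ m ∈ C, (n : ℝ) ^ lam < (m : ℝ)) := by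
  classical
  refine sparse_law (by positivity) _ fun _ ε hε => ⟨9, 1, fun X hX => ?_⟩
  have hX1 : (1 : ℝ) ≤ X := by exact_mod_cast hX
  have hX0 : (0 : ℝ) < X := by linarith
  obtain ⟨x, hx⟩ : ∃ x : ℕ, x = ⌊(X : ℝ) ^ lam⌋₊ := ⟨_, rfl⟩
  have hXl : 1 ≤ (X : ℝ) ^ lam := Real.one_le_rpow hX1 (by linarith)
  have hx1 : 1 ≤ x := by
    rw [hx]
    exact Nat.le_floor (by exact_mod_cast hXl)
  have hxle : (x : ℝ) ≤ (X : ℝ) ^ lam := by
    rw [hx]
    exact Nat.floor_le (by positivity)
  have hres := (SparseCycles.result x hx1).1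
  have hfin : (⋃₀ {C : Set ℕ | IsCycle C ∧ C ⊆ Set.Icc 1 x}).Finite :=
    (Set.finite_Icc 1 x).subset (Set.sUnion_subset fun C hC => hC.2)
  refine (Nat.cast_le.2 (Set.ncard_le_ncard ?_ hfin)).trans (hres.trans ?_)
  · rintro n ⟨hn1, hn2, hn3⟩
    push Not at hn3
    obtain ⟨C, hC, hnC, hCle⟩ := hn3
    have hn1' : (1 : ℝ) ≤ n := by exact_mod_cast hn1
    have hpos : ∀ m ∈ C, 1 ≤ m := by
      obtain ⟨a, k, ha, hk, hak, hCeq⟩ := hC
      have hf : ∀ j, 1 ≤ SparseCycles.f^[j] a := by
        intro j
        induction j with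
        | zero => exact ha
        | succ j ih =>
          rw [Function.iterate_succ_apply']
          obtain ⟨b, hb⟩ : ∃ b, b = SparseCycles.f^[j] a := ⟨_, rfl⟩
          rw [← hb] at ih ⊢
          unfold SparseCycles.f
          split_ifs <;> omega
      intro m hm
      rw [hCeq] at hm
      obtain ⟨j, _, rfl⟩ := hm
      exact hf j
    refine Set.mem_sUnion.2 ⟨C, ⟨hC, fun m hm => ⟨hpos m hm, ?_⟩⟩, hnC⟩
    rw [hx]
    refine Nat.le_floor ((hCle m hm).trans ?_)
    exact Real.rpow_le_rpow (by linarith) (by exact_mod_cast hn2) (by linarith)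
  · refine mul_le_mul_of_nonneg_left ?_ (by norm_num)
    calc (x : ℝ) ^ ((75 : ℝ) / 76) ≤ ((X : ℝ) ^ lam) ^ ((75 : ℝ) / 76) :=
          Real.rpow_le_rpow (Nat.cast_nonneg _) hxle (by norm_num)
      _ = (X : ℝ) ^ (75 * lam / 76) := by
          rw [← Real.rpow_mul hX0.le]
          congr 1
          ring
      _ ≤ _ := Real.rpow_le_rpow_of_exponent_le hX1 (by linarith)

end Pool.Agent.Results.MP_9010c3_nt.Approximations
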